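import Pool.Agent.Work.MP_e487d8_al.Span.Crys

/-!
# MP_e487d8_al, block SPAN: the strings of adapted simples span for reduced words
-/

set_option autoImplicit false

namespace Pool.Agent.Work.MP_e487d8_al.Span

variable {I : Type*}

namespace CrysData

variable {A : I → I → ℤ} {D : CrysData I A}

theorem eps_one (i : I) : D.eps i D.one = 0 := by
  classical
  by_contra h
  have h1 := wt_e i D.one (Nat.pos_of_ne_zero h)
  have h2 := D.wt_nonneg (D.e i D.one) i
  rw [h1, D.wt_one] at h2
  simp [al] at h2

theorem emax_one (i : I) : D.emax i D.one = D.one := by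
  unfold CrysData.emax
  rw [eps_one]
  rfl

theorem adapted_one (w : List I) : D.Adapted w D.one := by
  induction w with
  | nil => rfl
  | cons i w ih => simp only [CrysData.Adapted]; rw [emax_one]; exact ih

theorem str_one (w : List I) : D.str w D.one = List.replicate w.length 0 := by
  induction w with
  | nil => rfl
  | cons i w ih =>
    simp only [CrysData.str]
    rw [emax_one, eps_one, ih]
    rfl

theorem str_length (w : List I) (M : D.S) : (D.str w M).length = w.length := by
  induction w generalizing M with
  | nil => rfl
  | cons i w ih => simp only [CrysData.str, List.length_cons]; rw [ih]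

/-- the simples with triangular strings -/
theorem triangular (hA : SymGCM A) (w : List I) (hr : Reduced A w) (k : ℕ) (hk : k < w.length) :
    ∃ M : D.S, D.Adapted w M ∧ (D.str w M).getD k 0 = 1 ∧
      ∀ l, k < l → (D.str w M).getD l 0 = 0 := by
  have hsplit : w.take (k + 1) ++ w.drop (k + 1) = w := List.take_append_drop _ _
  have hr' : Reduced A (w.take (k + 1)) := by
    rw [← hsplit] at hr
    exact reduced_prefix hr
  obtain ⟨M, _, _, hM⟩ := extremal (D := D) hA _ hr'
  obtain ⟨l, hl1, hl2, hl3, hl4⟩ := hM (w.drop (k + 1))
  rw [hsplit] at hl2 hl4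
  have hlen : l.length = k + 1 := by
    rw [hl1, List.length_take]
    omega
  refine ⟨M, hl4.2 (adapted_one _), ?_, ?_⟩
  · rw [hl2, List.getD_append _ _ _ _ (by omega)]
    have h1 := hl3 (by
      intro h
      have := congrArg List.length h
      rw [List.length_take] at this
      simp only [List.length_nil] at this
      omega)
    rw [List.getLast?_eq_getElem?] at h1
    have h2 : l.length - 1 = k := by omega
    rw [h2] at h1
    rw [List.getD_eq_getElem?_getD, h1]
    rfl
  · intro j hj
    rw [hl2, List.getD_append_right _ _ _ _ (by omega), str_one]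
    rw [List.getD_eq_getElem?_getD, List.getElem?_replicate]
    split_ifs <;> rfl

/-- the string as a rational vector -/
def vec (D : CrysData I A) (w : List I) (M : D.S) : Fin w.length → ℚ :=
  fun j => ((D.str w M).getD j 0 : ℕ)

theorem span_of_triangular {m : ℕ} (V : Submodule ℚ (Fin m → ℚ))
    (h : ∀ k : Fin m, ∃ v ∈ V, v k = 1 ∧ ∀ l, k < l → v l = 0) : V = ⊤ := by
  classical
  have key : ∀ (n : ℕ) (v : Fin m → ℚ), (∀ l : Fin m, n ≤ l.1 → v l = 0) → v ∈ V := by
    intro n
    induction n with
    | zero =>
      intro v hv
      have : v = 0 := by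
        ext l
        exact hv l (Nat.zero_le _)
      rw [this]
      exact V.zero_mem
    | succ n ih =>
      intro v hv
      by_cases hn : n < m
      · obtain ⟨u, hu, hu1, hu2⟩ := h ⟨n, hn⟩
        have h1 : v - v ⟨n, hn⟩ • u ∈ V := by
          apply ih
          intro l hl
          rcases Nat.lt_or_ge n l.1 with h3 | h3
          · have e1 := hv l h3
            have e2 := hu2 l h3
            simp [e1, e2]
          · have e : l = ⟨n, hn⟩ := Fin.ext (by simp only; omega)
            subst e
            simp [hu1]
        have h2 : v = (v - v ⟨n, hn⟩ • u) + v ⟨n, hn⟩ • u := by abel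
        rw [h2]
        exact V.add_mem h1 (V.smul_mem _ hu)
      · apply ih
        intro l hl
        have := l.2
        omega
  rw [eq_top_iff]
  intro v _
  exact key m v (fun l hl => absurd l.2 (by omega))

theorem spans (hA : SymGCM A) (w : List I) (hr : Reduced A w) :
    Submodule.span ℚ {v | ∃ M : D.S, D.Adapted w M ∧ v = D.vec w M} = ⊤ := by
  apply span_of_triangular
  intro k
  obtain ⟨M, h1, h2, h3⟩ := triangular (D := D) hA w hr k.1 k.2
  refine ⟨D.vec w M, Submodule.subset_span ⟨M, h1, rfl⟩, ?_, ?_⟩
  · unfold vec
    rw [h2]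
    norm_num
  · intro l hl
    unfold vec
    rw [h3 l hl]
    norm_num

end CrysData

end Pool.Agent.Work.MP_e487d8_al.Span
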