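import Mathlib

/-!
# MP_e487d8_al, block SPAN: the root lattice, affine actions of the Weyl group, reduced words

`A` is a symmetric generalized Cartan matrix on `I`; the root lattice is `I →₀ ℤ`.
-/

set_option autoImplicit false

namespace Pool.Agent.Work.MP_e487d8_al.Span

variable {I : Type*}

/-- symmetric generalized Cartan matrix -/
structure SymGCM (A : I → I → ℤ) : Prop where
  diag : ∀ i, A i i = 2
  symm : ∀ i j, A i j = A j i
  off : ∀ i j, i ≠ j → A i j ≤ 0

/-- `(α_i, β)` -/
noncomputable def pair (A : I → I → ℤ) (i : I) (β : I →₀ ℤ) : ℤ := β.sum fun j n => n * A i j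

/-- `(δ, β)` -/
noncomputable def bil (A : I → I → ℤ) (δ β : I →₀ ℤ) : ℤ := δ.sum fun j n => n * pair A j β

/-- `(Λ, β)` for a dominant weight given by its values on the coroots -/
noncomputable def lam (Λ : I → ℤ) (β : I →₀ ℤ) : ℤ := β.sum fun j n => n * Λ j

/-- simple root -/
noncomputable def al (i : I) : I →₀ ℤ := Finsupp.single i 1

/-- the simple reflection on the root lattice -/
noncomputable def sr (A : I → I → ℤ) (i : I) (β : I →₀ ℤ) : I →₀ ℤ := β - pair A i β • al i

/-- the simple reflection on `Λ - Q`, written on `β` -/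
noncomputable def sL (A : I → I → ℤ) (Λ : I → ℤ) (i : I) (β : I →₀ ℤ) : I →₀ ℤ :=
  β + (Λ i - pair A i β) • al i

/-- the product of the simple reflections of a word -/
noncomputable def act (A : I → I → ℤ) : List I → (I →₀ ℤ) → (I →₀ ℤ)
  | [], β => β
  | i :: w, β => sr A i (act A w β)

/-- the same for the action on `Λ - Q` -/
noncomputable def aff (A : I → I → ℤ) (Λ : I → ℤ) : List I → (I →₀ ℤ) → (I →₀ ℤ)
  | [], β => β
  | i :: w, β => sL A Λ i (aff A Λ w β)

/-- reduced word: no shorter word has the same product of simple reflections -/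
def Reduced (A : I → I → ℤ) (w : List I) : Prop :=
  ∀ w' : List I, (∀ β, act A w' β = act A w β) → w.length ≤ w'.length

section lin

variable (A : I → I → ℤ) (Λ : I → ℤ)

theorem pair_add (i : I) (β γ : I →₀ ℤ) : pair A i (β + γ) = pair A i β + pair A i γ := by
  unfold pair
  rw [Finsupp.sum_add_index' (fun _ => by ring) (fun _ _ _ => by ring)]

theorem pair_smul (i : I) (c : ℤ) (β : I →₀ ℤ) : pair A i (c • β) = c * pair A i β := by
  unfold pair
  rw [Finsupp.sum_smul_index' (fun _ => by ring), Finsupp.mul_sum]
  apply Finsupp.sum_congr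
  intro j _
  rw [smul_eq_mul]; ring

theorem pair_zero (i : I) : pair A i 0 = 0 := by simp [pair]

theorem pair_al (i j : I) : pair A i (al j) = A i j := by
  simp [pair, al]

theorem lam_add (β γ : I →₀ ℤ) : lam Λ (β + γ) = lam Λ β + lam Λ γ := by
  unfold lam
  rw [Finsupp.sum_add_index' (fun _ => by ring) (fun _ _ _ => by ring)]

theorem lam_smul (c : ℤ) (β : I →₀ ℤ) : lam Λ (c • β) = c * lam Λ β := by
  unfold lam
  rw [Finsupp.sum_smul_index' (fun _ => by ring), Finsupp.mul_sum]
  apply Finsupp.sum_congr
  intro j _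
  rw [smul_eq_mul]; ring

theorem lam_zero : lam Λ 0 = 0 := by simp [lam]

theorem lam_al (i : I) : lam Λ (al i) = Λ i := by simp [lam, al]

theorem bil_add_left (δ δ' β : I →₀ ℤ) : bil A (δ + δ') β = bil A δ β + bil A δ' β := by
  unfold bil
  rw [Finsupp.sum_add_index' (fun _ => by ring) (fun _ _ _ => by ring)]

theorem bil_smul_left (c : ℤ) (δ β : I →₀ ℤ) : bil A (c • δ) β = c * bil A δ β := by
  unfold bil
  rw [Finsupp.sum_smul_index' (fun _ => by ring), Finsupp.mul_sum]
  apply Finsupp.sum_congr
  intro j _
  rw [smul_eq_mul]; ring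

theorem bil_zero_left (β : I →₀ ℤ) : bil A 0 β = 0 := by simp [bil]

theorem bil_al_left (i : I) (β : I →₀ ℤ) : bil A (al i) β = pair A i β := by
  simp [bil, al]

variable {A}

theorem bil_symm (hA : SymGCM A) (δ β : I →₀ ℤ) : bil A δ β = bil A β δ := by
  classical
  induction δ using Finsupp.induction_linear with
  | zero =>
    rw [bil_zero_left]
    unfold bil
    simp [pair_zero]
  | add f g hf hg =>
    rw [bil_add_left, hf, hg]
    unfold bil
    rw [← Finsupp.sum_add]
    apply Finsupp.sum_congr
    intro j _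
    rw [pair_add]; ring
  | single i n =>
    have e : (Finsupp.single i n : I →₀ ℤ) = n • al i := by simp [al]
    rw [e, bil_smul_left, bil_al_left]
    unfold bil pair
    rw [Finsupp.mul_sum]
    apply Finsupp.sum_congr
    intro j _
    have : (n • al i).sum (fun k m => m * A j k) = n * A j i := by
      have := pair_smul A j n (al i)
      rw [pair_al] at this
      exact this
    rw [this, hA.symm i j]
    ring

theorem bil_add_right (hA : SymGCM A) (δ β β' : I →₀ ℤ) :
    bil A δ (β + β') = bil A δ β + bil A δ β' := by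
  rw [bil_symm hA, bil_add_left, bil_symm hA β, bil_symm hA β']

theorem bil_smul_right (hA : SymGCM A) (c : ℤ) (δ β : I →₀ ℤ) :
    bil A δ (c • β) = c * bil A δ β := by
  rw [bil_symm hA, bil_smul_left, bil_symm hA β]

theorem bil_al_right (hA : SymGCM A) (i : I) (β : I →₀ ℤ) : bil A β (al i) = pair A i β := by
  rw [bil_symm hA, bil_al_left]

end lin

section act

variable {A : I → I → ℤ} {Λ : I → ℤ}

theorem sr_add (i : I) (β γ : I →₀ ℤ) : sr A i (β + γ) = sr A i β + sr A i γ := by
  unfold sr
  rw [pair_add, add_smul]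
  abel

theorem sr_smul (i : I) (c : ℤ) (β : I →₀ ℤ) : sr A i (c • β) = c • sr A i β := by
  unfold sr
  rw [pair_smul, smul_sub, smul_smul]

theorem act_add (w : List I) (β γ : I →₀ ℤ) : act A w (β + γ) = act A w β + act A w γ := by
  induction w with
  | nil => rfl
  | cons i w ih => simp only [act]; rw [ih, sr_add]

theorem act_smul (w : List I) (c : ℤ) (β : I →₀ ℤ) : act A w (c • β) = c • act A w β := by
  induction w with
  | nil => rfl
  | cons i w ih => simp only [act]; rw [ih, sr_smul]

theorem act_append (v w : List I) (β : I →₀ ℤ) : act A (v ++ w) β = act A v (act A w β) := by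
  induction v with
  | nil => rfl
  | cons i v ih => simp only [List.cons_append, act]; rw [ih]

theorem aff_append (v w : List I) (β : I →₀ ℤ) :
    aff A Λ (v ++ w) β = aff A Λ v (aff A Λ w β) := by
  induction v with
  | nil => rfl
  | cons i v ih => simp only [List.cons_append, aff]; rw [ih]

theorem sL_add (i : I) (β γ : I →₀ ℤ) : sL A Λ i (β + γ) = sL A Λ i β + sr A i γ := by
  unfold sL sr
  rw [pair_add]
  have : (Λ i - (pair A i β + pair A i γ)) • al i =
      (Λ i - pair A i β) • al i - pair A i γ • al i := by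
    rw [← sub_smul]; congr 1; ring
  rw [this]
  abel

theorem aff_add (w : List I) (β γ : I →₀ ℤ) : aff A Λ w (β + γ) = aff A Λ w β + act A w γ := by
  induction w with
  | nil => rfl
  | cons i w ih => simp only [aff, act]; rw [ih, sL_add]

theorem sr_sr (hA : SymGCM A) (i : I) (β : I →₀ ℤ) : sr A i (sr A i β) = β := by
  have h : pair A i (sr A i β) = - pair A i β := by
    unfold sr
    rw [sub_eq_add_neg, pair_add, ← neg_smul, pair_smul, pair_al, hA.diag]
    ring
  unfold sr at h ⊢
  rw [h]
  rw [neg_smul]
  abel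

theorem sL_sL (hA : SymGCM A) (i : I) (β : I →₀ ℤ) : sL A Λ i (sL A Λ i β) = β := by
  have h : Λ i - pair A i (sL A Λ i β) = - (Λ i - pair A i β) := by
    unfold sL
    rw [pair_add, pair_smul, pair_al, hA.diag]
    ring
  have e : sL A Λ i (sL A Λ i β) =
      sL A Λ i β + (Λ i - pair A i (sL A Λ i β)) • al i := rfl
  rw [e, h]
  unfold sL
  rw [neg_smul]
  abel

theorem act_reverse (hA : SymGCM A) (w : List I) (β : I →₀ ℤ) :
    act A w.reverse (act A w β) = β := by
  induction w generalizing β with
  | nil => rfl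
  | cons i w ih =>
    rw [List.reverse_cons, act_append]
    simp only [act]
    rw [sr_sr hA, ih]

theorem act_reverse' (hA : SymGCM A) (w : List I) (β : I →₀ ℤ) :
    act A w (act A w.reverse β) = β := by
  have := act_reverse hA w.reverse β
  rwa [List.reverse_reverse] at this

theorem aff_reverse (hA : SymGCM A) (w : List I) (β : I →₀ ℤ) :
    aff A Λ w.reverse (aff A Λ w β) = β := by
  induction w generalizing β with
  | nil => rfl
  | cons i w ih =>
    rw [List.reverse_cons, aff_append]
    simp only [aff]
    rw [sL_sL hA, ih]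

theorem aff_reverse' (hA : SymGCM A) (w : List I) (β : I →₀ ℤ) :
    aff A Λ w (aff A Λ w.reverse β) = β := by
  have := aff_reverse (Λ := Λ) hA w.reverse β
  rwa [List.reverse_reverse] at this

/-- `⟨δ, Λ - β⟩` -/
noncomputable def HH (A : I → I → ℤ) (Λ : I → ℤ) (δ β : I →₀ ℤ) : ℤ := lam Λ δ - bil A δ β

theorem sr_eq (i : I) (β : I →₀ ℤ) : sr A i β = β + (- pair A i β) • al i := by
  unfold sr
  rw [neg_smul, sub_eq_add_neg]

theorem HH_step (hA : SymGCM A) (i : I) (δ β : I →₀ ℤ) :
    HH A Λ (sr A i δ) (sL A Λ i β) = HH A Λ δ β := by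
  rw [sr_eq]
  unfold HH sL
  rw [lam_add, lam_smul, lam_al, bil_add_left, bil_smul_left,
    bil_add_right hA, bil_add_right hA, bil_smul_right hA, bil_smul_right hA, bil_al_right hA,
    bil_al_left, bil_al_left, pair_al, hA.diag]
  ring

theorem HH_word (hA : SymGCM A) (w : List I) (δ β : I →₀ ℤ) :
    HH A Λ (act A w δ) (aff A Λ w β) = HH A Λ δ β := by
  induction w with
  | nil => rfl
  | cons i w ih => simp only [act, aff]; rw [HH_step hA, ih]

theorem bil_step (hA : SymGCM A) (i : I) (δ β : I →₀ ℤ) :
    bil A (sr A i δ) (sr A i β) = bil A δ β := by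
  unfold sr
  rw [sub_eq_add_neg, ← neg_smul, sub_eq_add_neg, ← neg_smul, bil_add_left, bil_smul_left,
    bil_add_right hA, bil_add_right hA, bil_smul_right hA, bil_smul_right hA, bil_al_right hA,
    bil_al_right hA, bil_al_left, pair_al, hA.diag]
  ring

theorem bil_word (hA : SymGCM A) (w : List I) (δ β : I →₀ ℤ) :
    bil A (act A w δ) (act A w β) = bil A δ β := by
  induction w with
  | nil => rfl
  | cons i w ih => simp only [act]; rw [bil_step hA, ih]

/-- the value of the affine action of a reflection at `0` -/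
theorem aff_refl (hA : SymGCM A) (v : List I) (i : I) :
    aff A Λ (v ++ i :: v.reverse) 0 = lam Λ (act A v (al i)) • act A v (al i) := by
  rw [aff_append]
  simp only [aff]
  set b := aff A Λ v.reverse 0 with hb
  have h1 : aff A Λ v b = 0 := by rw [hb]; exact aff_reverse' hA v 0
  have h2 : sL A Λ i b = b + (Λ i - pair A i b) • al i := rfl
  rw [h2, aff_add, h1, zero_add, act_smul]
  congr 1
  have h3 := HH_word (Λ := Λ) hA v (al i) b
  rw [h1] at h3
  unfold HH at h3
  rw [lam_al, bil_al_left] at h3
  have h4 : bil A (act A v (al i)) 0 = 0 := by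
    rw [bil_symm hA, bil_zero_left]
  rw [h4] at h3
  linarith

/-- `g β = (β, β) - 2 (Λ, β)` -/
noncomputable def gg (A : I → I → ℤ) (Λ : I → ℤ) (β : I →₀ ℤ) : ℤ := bil A β β - 2 * lam Λ β

theorem gg_sL (hA : SymGCM A) (i : I) (β : I →₀ ℤ) : gg A Λ (sL A Λ i β) = gg A Λ β := by
  unfold gg sL
  rw [lam_add, lam_smul, lam_al, bil_add_left, bil_smul_left, bil_add_right hA,
    bil_add_right hA, bil_smul_right hA, bil_smul_right hA, bil_al_right hA, bil_al_left,
    bil_al_right hA, pair_al, hA.diag]
  ring

theorem gg_aff (hA : SymGCM A) (w : List I) (β : I →₀ ℤ) :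
    gg A Λ (aff A Λ w β) = gg A Λ β := by
  induction w with
  | nil => rfl
  | cons i w ih => simp only [aff]; rw [gg_sL hA, ih]

theorem gg_sub_al (hA : SymGCM A) (i : I) (β : I →₀ ℤ) :
    gg A Λ (β - al i) = gg A Λ β + 2 * (Λ i - pair A i β) + 2 := by
  unfold gg
  have e : β - al i = β + (-1 : ℤ) • al i := by rw [neg_smul, one_smul]; abel
  rw [e, lam_add, lam_smul, lam_al, bil_add_left, bil_smul_left, bil_add_right hA,
    bil_add_right hA, bil_smul_right hA, bil_smul_right hA, bil_al_right hA, bil_al_left,
    bil_al_right hA, pair_al, hA.diag]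
  ring

end act

section exch

variable {A : I → I → ℤ}

/-- sign coherence of real roots -/
def Sign (A : I → I → ℤ) : Prop :=
  ∀ (v : List I) (i : I), 0 ≤ act A v (al i) ∨ act A v (al i) ≤ 0

theorem refl_conj (hA : SymGCM A) (v : List I) (i j : I) (h : act A v (al i) = al j)
    (β : I →₀ ℤ) : act A v (sr A i (act A v.reverse β)) = sr A j β := by
  have h1 : sr A i (act A v.reverse β) =
      act A v.reverse β + (- pair A i (act A v.reverse β)) • al i := by
    unfold sr
    rw [neg_smul]; abel
  rw [h1, act_add, act_smul, act_reverse' hA, h]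
  have h2 : pair A i (act A v.reverse β) = pair A j β := by
    have := bil_word hA v (al i) (act A v.reverse β)
    rw [act_reverse' hA, h, bil_al_left, bil_al_left] at this
    exact this.symm
  rw [h2]
  unfold sr
  rw [neg_smul]; abel

theorem nonneg_al (i : I) : 0 ≤ al i := by
  intro j
  unfold al
  simp only [Finsupp.coe_zero, Pi.zero_apply]
  classical
  rw [Finsupp.single_apply]
  split_ifs <;> norm_num

theorem root_simple (hA : SymGCM A) (v : List I) (i j : I) (h0 : 0 ≤ act A v (al i))
    (h1 : sr A j (act A v (al i)) ≤ 0) : act A v (al i) = al j := by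
  classical
  set γ := act A v (al i) with hγ
  have h2 : γ = γ j • al j := by
    ext m
    by_cases hm : m = j
    · subst hm
      simp [al]
    · have e1 : (sr A j γ) m = γ m := by
        unfold sr al
        simp [Ne.symm hm]
      have e2 : (sr A j γ) m ≤ 0 := h1 m
      have e3 : 0 ≤ γ m := h0 m
      have e4 : γ m = 0 := by rw [e1] at e2; exact le_antisymm e2 e3
      rw [e4]
      simp [al, Ne.symm hm]
  have h3 : bil A γ γ = 2 := by
    rw [hγ, bil_word hA, bil_al_left, pair_al, hA.diag]
  rw [h2, bil_smul_left, bil_smul_right hA, bil_al_left, pair_al, hA.diag] at h3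
  have h4 : γ j * γ j = 1 := by linarith
  have h5 : 0 ≤ γ j := h0 j
  have h6 : γ j = 1 := by nlinarith
  rw [h2, h6, one_smul]

theorem exch_aux (hA : SymGCM A) (hS : Sign A) (i : I) (u : List I)
    (hu : ¬ 0 ≤ act A u.reverse (al i)) :
    ∃ (p : List I) (j : I) (q : List I), u = p ++ j :: q ∧ act A p.reverse (al i) = al j := by
  induction u using List.reverseRecOn with
  | nil => exact absurd (nonneg_al i) hu
  | append_singleton u j ih =>
    by_cases h : 0 ≤ act A u.reverse (al i)
    · refine ⟨u, j, [], rfl, ?_⟩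
      rw [List.reverse_append] at hu
      simp only [List.reverse_cons, List.reverse_nil, List.nil_append, List.singleton_append,
        act] at hu
      have h2 : sr A j (act A u.reverse (al i)) ≤ 0 := by
        rcases hS (j :: u.reverse) i with h3 | h3
        · exact absurd h3 hu
        · exact h3
      exact root_simple hA u.reverse i j h h2
    · obtain ⟨p, j', q, hq, hp⟩ := ih h
      refine ⟨p, j', q ++ [j], ?_, hp⟩
      rw [hq]
      simp

theorem reduced_pos (hA : SymGCM A) (hS : Sign A) (i : I) (u : List I)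
    (hr : Reduced A (i :: u)) : 0 ≤ act A u.reverse (al i) := by
  by_contra hu
  obtain ⟨p, j, q, rfl, hp⟩ := exch_aux hA hS i u hu
  have key : ∀ β, act A (p ++ q) β = act A (i :: (p ++ j :: q)) β := by
    intro β
    have h1 := refl_conj hA p.reverse i j hp (act A q β)
    rw [List.reverse_reverse] at h1
    simp only [act]
    rw [act_append, act_append]
    simp only [act]
    rw [← h1, act_reverse' hA, sr_sr hA]
  have := hr _ key
  simp at this

theorem reduced_tail {i : I} {u : List I} (hr : Reduced A (i :: u)) : Reduced A u := by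
  intro w' h
  have := hr (i :: w') (fun β => by simp only [act]; rw [h])
  simpa using this

theorem reduced_prefix {u v : List I} (hr : Reduced A (u ++ v)) : Reduced A u := by
  intro w' h
  have := hr (w' ++ v) (fun β => by rw [act_append, act_append, h])
  simpa using this

end exch

end Pool.Agent.Work.MP_e487d8_al.Span
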