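import Pool.Agent.Work.MP_e487d8_al.Span.Weyl

/-!
# MP_e487d8_al, block SPAN: existence of simples with triangular strings for reduced words

`CrysData` lists the facts on simple modules which are used.
-/

set_option autoImplicit false

namespace Pool.Agent.Work.MP_e487d8_al.Span

variable {I : Type*}

/-- the facts on simple modules (up to shift) which are needed -/
structure CrysData (I : Type*) (A : I → I → ℤ) where
  S : Type*
  one : S
  wt : S → I →₀ ℤ
  eps : I → S → ℕ
  epss : I → S → ℕ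
  f : I → S → S
  e : I → S → S
  wt_one : wt one = 0
  wt_nonneg : ∀ M, 0 ≤ wt M
  epss_one : ∀ i, epss i one = 0
  wt_f : ∀ i M, wt (f i M) = wt M + al i
  f_e : ∀ i M, 0 < eps i M → f i (e i M) = M
  eps_f : ∀ i M, eps i (f i M) = eps i M + 1
  e_f : ∀ i M, e i (f i M) = M
  epss_f : ∀ i M, epss i (f i M) ≤ epss i M + 1
  epss_f_ne : ∀ i j M, i ≠ j → epss j (f i M) ≤ epss j M
  epss_e : ∀ i j M, 0 < eps i M → epss j (e i M) ≤ epss j M
  d_nonneg : ∀ i M, pair A i (wt M) ≤ (eps i M : ℤ) + epss i M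
  epss_f_lt : ∀ i M, pair A i (wt M) < (eps i M : ℤ) + epss i M → epss i (f i M) ≤ epss i M

namespace CrysData

variable {A : I → I → ℤ} (D : CrysData I A)

/-- `e_i^max` -/
def emax (i : I) (M : D.S) : D.S := (D.e i)^[D.eps i M] M

/-- the string of `M` along the word `w` -/
def str : List I → D.S → List ℕ
  | [], _ => []
  | i :: w, M => D.eps i M :: str w (D.emax i M)

/-- `M` is adapted to the word `w` -/
def Adapted : List I → D.S → Prop
  | [], M => M = D.one
  | i :: w, M => Adapted w (D.emax i M)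

/-- the crystal `B(Λ)` -/
def BL (Λ : I → ℤ) (M : D.S) : Prop := ∀ j, (D.epss j M : ℤ) ≤ Λ j

variable {D}

theorem BL_f {Λ : I → ℤ} {M : D.S} (i : I) (h : D.BL Λ M)
    (hp : 0 < (D.eps i M : ℤ) + Λ i - pair A i (D.wt M)) : D.BL Λ (D.f i M) := by
  intro j
  by_cases hj : i = j
  · subst hj
    by_cases hd : pair A i (D.wt M) < (D.eps i M : ℤ) + D.epss i M
    · have := D.epss_f_lt i M hd
      have h2 := h i
      have : (D.epss i (D.f i M) : ℤ) ≤ D.epss i M := by exact_mod_cast this
      linarith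
    · have h1 := D.epss_f i M
      have h1' : (D.epss i (D.f i M) : ℤ) ≤ D.epss i M + 1 := by exact_mod_cast h1
      push Not at hd
      linarith
  · have h1 := D.epss_f_ne i j M hj
    have h1' : (D.epss j (D.f i M) : ℤ) ≤ D.epss j M := by exact_mod_cast h1
    exact le_trans h1' (h j)

theorem BL_e {Λ : I → ℤ} {M : D.S} (i : I) (h : D.BL Λ M) (hp : 0 < D.eps i M) :
    D.BL Λ (D.e i M) := by
  intro j
  have h1 := D.epss_e i j M hp
  have h1' : (D.epss j (D.e i M) : ℤ) ≤ D.epss j M := by exact_mod_cast h1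
  exact le_trans h1' (h j)

theorem phi_nonneg {Λ : I → ℤ} {M : D.S} (i : I) (h : D.BL Λ M) :
    0 ≤ (D.eps i M : ℤ) + Λ i - pair A i (D.wt M) := by
  have h1 := D.d_nonneg i M
  have h2 := h i
  linarith

/-- iterating `f_i` -/
theorem BL_f_iter (hA : SymGCM A) {Λ : I → ℤ} (i : I) (n : ℕ) :
    ∀ {M : D.S}, D.BL Λ M → (n : ℤ) ≤ (D.eps i M : ℤ) + Λ i - pair A i (D.wt M) →
      D.BL Λ ((D.f i)^[n] M) ∧ D.wt ((D.f i)^[n] M) = D.wt M + (n : ℤ) • al i := by
  induction n with
  | zero =>
    intro M h _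
    refine ⟨h, ?_⟩
    simp
  | succ n ih =>
    intro M h hn
    have h0 : 0 < (D.eps i M : ℤ) + Λ i - pair A i (D.wt M) := by
      push_cast at hn
      have : (0 : ℤ) ≤ n := Int.natCast_nonneg n
      linarith
    have h1 := BL_f i h h0
    have h2 : (n : ℤ) ≤ (D.eps i (D.f i M) : ℤ) + Λ i - pair A i (D.wt (D.f i M)) := by
      rw [D.eps_f, D.wt_f, pair_add, pair_al, hA.diag]
      push_cast at hn ⊢
      linarith
    obtain ⟨h3, h4⟩ := ih h1 h2
    rw [Function.iterate_succ_apply]
    refine ⟨h3, ?_⟩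
    rw [h4, D.wt_f]
    push_cast
    rw [add_smul, one_smul]
    abel

theorem eps_f_iter (i : I) (n : ℕ) (M : D.S) : D.eps i ((D.f i)^[n] M) = D.eps i M + n := by
  induction n generalizing M with
  | zero => rfl
  | succ n ih =>
    rw [Function.iterate_succ_apply, ih, D.eps_f]
    ring

theorem e_f_iter (i : I) (n : ℕ) (M : D.S) : (D.e i)^[n] ((D.f i)^[n] M) = M := by
  induction n generalizing M with
  | zero => rfl
  | succ n ih =>
    rw [Function.iterate_succ_apply, Function.iterate_succ_apply', D.e_f, ih]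

theorem wt_e (i : I) (M : D.S) (h : 0 < D.eps i M) : D.wt (D.e i M) = D.wt M - al i := by
  have h1 := D.wt_f i (D.e i M)
  rw [D.f_e i M h] at h1
  rw [h1]; abel

theorem eps_e (i : I) (M : D.S) (h : 0 < D.eps i M) : D.eps i (D.e i M) + 1 = D.eps i M := by
  have h1 := D.eps_f i (D.e i M)
  rw [D.f_e i M h] at h1
  exact h1.symm

/-- iterating `e_i` -/
theorem BL_e_iter {Λ : I → ℤ} (i : I) (n : ℕ) :
    ∀ {M : D.S}, D.BL Λ M → n ≤ D.eps i M →
      D.BL Λ ((D.e i)^[n] M) ∧ D.wt ((D.e i)^[n] M) = D.wt M - (n : ℤ) • al i := by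
  induction n with
  | zero =>
    intro M h _
    refine ⟨h, ?_⟩
    simp
  | succ n ih =>
    intro M h hn
    have h0 : 0 < D.eps i M := by omega
    have h1 := BL_e i h h0
    have h2 := eps_e i M h0
    obtain ⟨h3, h4⟩ := ih h1 (by omega)
    rw [Function.iterate_succ_apply]
    refine ⟨h3, ?_⟩
    rw [h4, wt_e i M h0]
    push_cast
    rw [add_smul, one_smul]
    abel

/-- the weights of `B(Λ)` -/
def WtL (D : CrysData I A) (Λ : I → ℤ) (β : I →₀ ℤ) : Prop := ∃ M : D.S, D.BL Λ M ∧ D.wt M = β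

theorem WtL_sL (hA : SymGCM A) {Λ : I → ℤ} {β : I →₀ ℤ} (i : I) (h : WtL D Λ β) :
    WtL D Λ (sL A Λ i β) := by
  obtain ⟨M, hM, rfl⟩ := h
  rcases le_total 0 (Λ i - pair A i (D.wt M)) with h0 | h0
  · obtain ⟨n, hn⟩ := Int.eq_ofNat_of_zero_le h0
    obtain ⟨h1, h2⟩ := BL_f_iter hA i n hM (by
      have : (0 : ℤ) ≤ D.eps i M := Int.natCast_nonneg _
      linarith)
    refine ⟨_, h1, ?_⟩
    rw [h2]
    unfold sL
    rw [hn]
  · have h0' : 0 ≤ -(Λ i - pair A i (D.wt M)) := by linarith
    obtain ⟨n, hn⟩ := Int.eq_ofNat_of_zero_le h0'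
    have hp := phi_nonneg i hM
    have hn' : n ≤ D.eps i M := by
      have : (n : ℤ) ≤ D.eps i M := by linarith
      exact_mod_cast this
    obtain ⟨h1, h2⟩ := BL_e_iter i n hM hn'
    refine ⟨_, h1, ?_⟩
    rw [h2]
    unfold sL
    have : Λ i - pair A i (D.wt M) = -(n : ℤ) := by linarith
    rw [this, neg_smul, sub_eq_add_neg]

theorem WtL_zero {Λ : I → ℤ} (hΛ : ∀ j, 0 ≤ Λ j) : WtL D Λ 0 := by
  refine ⟨D.one, fun j => ?_, D.wt_one⟩
  rw [D.epss_one]
  exact_mod_cast hΛ j

theorem WtL_aff (hA : SymGCM A) {Λ : I → ℤ} (hΛ : ∀ j, 0 ≤ Λ j) (w : List I) :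
    WtL D Λ (aff A Λ w 0) := by
  induction w with
  | nil => exact WtL_zero hΛ
  | cons i w ih => exact WtL_sL hA i ih

theorem WtL_nonneg {Λ : I → ℤ} {β : I →₀ ℤ} (h : WtL D Λ β) : 0 ≤ β := by
  obtain ⟨M, _, rfl⟩ := h
  exact D.wt_nonneg M

/-- sign coherence of real roots -/
theorem sign (D : CrysData I A) (hA : SymGCM A) : Sign A := by
  classical
  intro v i
  set γ := act A v (al i) with hγ
  by_cases h : ∃ j, 0 < γ j
  · left
    obtain ⟨j, hj⟩ := h
    set Λ : I → ℤ := fun k => if k = j then 1 else 0 with hΛ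
    have h0 : ∀ k, 0 ≤ Λ k := by intro k; rw [hΛ]; simp only; split_ifs <;> norm_num
    have h1 := WtL_nonneg (WtL_aff (D := D) hA h0 (v ++ i :: v.reverse))
    rw [aff_refl hA, ← hγ] at h1
    have h2 : lam Λ γ = γ j := by
      unfold lam
      rw [hΛ]
      simp only [mul_ite, mul_one, mul_zero]
      rw [Finsupp.sum_ite_eq']
      split_ifs with h3
      · rfl
      · exact (Finsupp.notMem_support_iff.1 h3).symm
    rw [h2] at h1
    intro k
    have h3 := h1 k
    simp only [Finsupp.coe_zero, Pi.zero_apply, Finsupp.coe_smul, Pi.smul_apply,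
      smul_eq_mul] at h3 ⊢
    exact nonneg_of_mul_nonneg_right h3 hj
  · right
    push Not at h
    intro k
    exact h k

/-- the height -/
noncomputable def ht (β : I →₀ ℤ) : ℤ := lam (fun _ => 1) β

theorem lam_nonneg {Λ : I → ℤ} {β : I →₀ ℤ} (hΛ : ∀ j, 0 ≤ Λ j) (hβ : 0 ≤ β) : 0 ≤ lam Λ β := by
  unfold lam
  apply Finset.sum_nonneg
  intro j _
  exact mul_nonneg (hβ j) (hΛ j)

theorem gg_nonpos (hA : SymGCM A) {Λ : I → ℤ} (hΛ : ∀ j, 0 ≤ Λ j) :
    ∀ (n : ℕ) (β : I →₀ ℤ), ht β ≤ n → WtL D Λ β → gg A Λ β ≤ 0 := by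
  intro n
  induction n using Nat.strong_induction_on with
  | _ n ih =>
    intro β hn hβ
    by_cases h : ∀ i, 0 ≤ Λ i - pair A i β
    · have hb := WtL_nonneg hβ
      have e : gg A Λ β = -(β.sum fun j m => m * (Λ j - pair A j β)) - lam Λ β := by
        unfold gg bil lam
        simp only [Finsupp.sum, ← Finset.sum_neg_distrib, Finset.mul_sum, ← Finset.sum_sub_distrib]
        apply Finset.sum_congr rfl
        intro j _
        ring
      have h1 := lam_nonneg hΛ hb
      have h2 : 0 ≤ β.sum fun j m => m * (Λ j - pair A j β) := by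
        apply Finset.sum_nonneg
        intro j _
        exact mul_nonneg (hb j) (h j)
      rw [e]; linarith
    · push Not at h
      obtain ⟨i, hi⟩ := h
      rw [← gg_sL hA i β]
      have hw := WtL_sL hA i hβ
      have hht : ht (sL A Λ i β) = ht β + (Λ i - pair A i β) := by
        unfold ht sL
        rw [lam_add, lam_smul, lam_al]
        ring
      have hpos : 0 ≤ ht (sL A Λ i β) := lam_nonneg (fun _ => by norm_num) (WtL_nonneg hw)
      have hn0 : 0 < n := by
        rcases Nat.eq_zero_or_pos n with h0 | h0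
        · subst h0
          exfalso
          rw [hht] at hpos
          push_cast at hn
          linarith
        · exact h0
      apply ih (n - 1) (by omega) _ _ hw
      rw [hht]
      push_cast [Nat.cast_sub hn0]
      linarith

theorem gg_nonpos' (hA : SymGCM A) {Λ : I → ℤ} (hΛ : ∀ j, 0 ≤ Λ j) {β : I →₀ ℤ}
    (h : WtL D Λ β) : gg A Λ β ≤ 0 := by
  have hpos : 0 ≤ ht β := lam_nonneg (fun _ => by norm_num) (WtL_nonneg h)
  obtain ⟨n, hn⟩ := Int.eq_ofNat_of_zero_le hpos
  exact gg_nonpos hA hΛ n β (by rw [hn]) h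

/-- the extremal simples -/
theorem extremal (hA : SymGCM A) : ∀ (w : List I), Reduced A w →
    ∃ M : D.S, D.BL (fun _ => 1) M ∧ D.wt M = aff A (fun _ => 1) w 0 ∧
      ∀ w' : List I, ∃ l : List ℕ, l.length = w.length ∧
        D.str (w ++ w') M = l ++ D.str w' D.one ∧
        (w ≠ [] → l.getLast? = some 1) ∧ (D.Adapted (w ++ w') M ↔ D.Adapted w' D.one) := by
  have hΛ : ∀ j : I, (0 : ℤ) ≤ (fun _ : I => (1 : ℤ)) j := fun _ => by norm_num
  have hS := sign D hA
  intro w
  induction w with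
  | nil =>
    intro _
    refine ⟨D.one, fun j => ?_, D.wt_one, fun w' => ⟨[], rfl, rfl, fun h => absurd rfl h, Iff.rfl⟩⟩
    rw [D.epss_one]
    norm_num
  | cons i u ih =>
    intro hr
    obtain ⟨M, hM1, hM2, hM3⟩ := ih (reduced_tail hr)
    set Λ : I → ℤ := fun _ => 1 with hΛd
    have hpos := reduced_pos hA hS i u hr
    have hn : Λ i - pair A i (D.wt M) = lam Λ (act A u.reverse (al i)) := by
      have h1 := HH_word (Λ := Λ) hA u.reverse (al i) (aff A Λ u 0)
      rw [aff_reverse hA] at h1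
      unfold HH at h1
      rw [lam_al, bil_al_left, bil_symm hA _ 0, bil_zero_left] at h1
      rw [hM2]
      linarith
    have hn0 : 0 ≤ Λ i - pair A i (D.wt M) := by
      rw [hn]
      exact lam_nonneg hΛ hpos
    obtain ⟨n, hn'⟩ := Int.eq_ofNat_of_zero_le hn0
    -- `eps_i M = 0`
    have heps : D.eps i M = 0 := by
      by_contra h0
      have h0' : 0 < D.eps i M := Nat.pos_of_ne_zero h0
      have h1 : WtL D Λ (D.wt M - al i) := ⟨D.e i M, BL_e i hM1 h0', wt_e i M h0'⟩
      have h2 := gg_nonpos' hA hΛ h1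
      rw [gg_sub_al hA, hM2, gg_aff hA] at h2
      have h3 : gg A Λ 0 = 0 := by
        unfold gg
        rw [bil_zero_left, lam_zero]
        ring
      rw [h3, ← hM2] at h2
      linarith
    obtain ⟨h1, h2⟩ := BL_f_iter hA i n hM1 (by rw [heps]; push_cast; linarith)
    have he : D.eps i ((D.f i)^[n] M) = n := by rw [eps_f_iter, heps]; ring
    have hem : D.emax i ((D.f i)^[n] M) = M := by
      unfold CrysData.emax
      rw [he, e_f_iter]
    refine ⟨(D.f i)^[n] M, h1, ?_, fun w' => ?_⟩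
    · rw [h2, ← hn']
      simp only [aff]
      rw [← hM2]
      rfl
    · obtain ⟨l, hl1, hl2, hl3, hl4⟩ := hM3 w'
      refine ⟨n :: l, by simp [hl1], ?_, ?_, ?_⟩
      · simp only [List.cons_append, CrysData.str]
        rw [he, hem, hl2]
      · intro _
        by_cases hu : u = []
        · subst hu
          have hl0 : l = [] := List.length_eq_zero_iff.1 (by simpa using hl1)
          subst hl0
          have h5 : D.wt M = 0 := by rw [hM2]; rfl
          rw [h5, pair_zero] at hn'
          have h6 : n = 1 := by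
            have : (n : ℤ) = 1 := by rw [← hn', hΛd]; norm_num
            exact_mod_cast this
          simp [h6]
        · have h5 := hl3 hu
          have hl0 : l ≠ [] := by
            intro h6; rw [h6] at h5; simp at h5
          obtain ⟨b, l', rfl⟩ := List.exists_cons_of_ne_nil hl0
          rw [List.getLast?_cons_cons]
          exact h5
      · simp only [List.cons_append, CrysData.Adapted]
        rw [hem]
        exact hl4

end CrysData

end Pool.Agent.Work.MP_e487d8_al.Span
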